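import Pool.Agent.U23.TC.Vio

/-!
# The run, for bounds some of which are infinite
-/

set_option autoImplicit false

namespace Pool.Agent.U23.TC

open Finset Pool.Agent.U23.TP Pool.Agent.U23.TB

/-- the comparison, for finite bounds -/
lemma cmp0 {r n : ℕ} {p : ℕ → Fin r → ℝ} (hrn : r ≤ n) (hp : Cheb r n p) {c' : Fin r → ℝ}
    {L U z : ℕ → ℝ} (hz1 : ∀ j < n, L j ≤ z j) (hz2 : ∀ j < n, z j ≤ U j)
    (hz3 : c' = ∑ j ∈ range n, z j • p j) {J : ℕ → ℕ}
    (hT : ∀ m ≤ r, ∀ j < n, Gap r J m j → ¬ Qp r L U (fun _ => 1) z m j)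
    {I : List ℕ} (hI : Inc r n (fn I)) (hle : ∀ l < r, fn I l ≤ J l) {x : ℕ → ℝ}
    (hx : ∀ j < n, stat r I j ≠ 2 → x j = yv r I L U j)
    (hxs : ∑ j ∈ range n, x j • p j = c') {K : ℕ} (hKr : K ≤ r)
    (hno : ∀ k, K ≤ k → k < r → ¬ Vio r L U I x k)
    (hK : K = 0 ∨ (1 ≤ K ∧ fn I (K - 1) = J (K - 1) ∧ Vio r L U I x (K - 1))) :
    ∀ j < n, z j - x j = 0 := by
  have hpar : ∀ a : ℕ, ((r + a) % 2 = 0 → (-1 : ℝ) ^ (r + a) = 1) ∧
      (¬ (r + a) % 2 = 0 → (-1 : ℝ) ^ (r + a) = -1) := by
    intro a
    constructor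
    · intro h1
      rw [neg_one_pow_parity (b := 0) (by omega), pow_zero]
    · intro h1
      rw [neg_one_pow_parity (b := 1) (by omega), pow_one]
  have hx0 : ∀ j < n, stat r I j = 0 → x j = L j := by
    intro j hj h
    rw [hx j hj (by omega)]
    unfold yv
    rw [if_pos h]
  have hx1 : ∀ j < n, stat r I j = 1 → x j = U j := by
    intro j hj h
    rw [hx j hj (by omega)]
    unfold yv
    rw [if_neg (by omega)]
  have hQ : ∀ a j, j < n → 0 < (-1 : ℝ) ^ (r + a) * (z j - x j) →
      (if (r + a) % 2 = 0 then L j ≤ x j else x j ≤ U j) → Qp r L U (fun _ => 1) z a j := by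
    intro a j hj h1 h2
    unfold Qp
    by_cases h3 : (r + a) % 2 = 0
    · rw [if_pos h3] at h2 ⊢
      rw [(hpar a).1 h3] at h1
      linarith
    · rw [if_neg h3] at h2 ⊢
      rw [(hpar a).2 h3] at h1
      right
      linarith
  refine compare (K := K) hrn hp hle (d := fun j => z j - x j) ?_ ?_ ?_ ?_ hT hKr ?_
  · simp only [sub_smul, Finset.sum_sub_distrib]
    rw [← hz3, hxs, sub_self]
  · intro a ha j hj hg
    have h1 := stat_gap hI ha hg
    by_cases h3 : (r + a) % 2 = 0
    · rw [(hpar a).1 h3, one_mul, hx0 j hj (by omega)]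
      linarith [hz1 j hj]
    · rw [(hpar a).2 h3, hx1 j hj (by omega)]
      linarith [hz2 j hj]
  · intro a ha j hj hg hpos
    refine hQ a j hj hpos ?_
    have h1 := stat_gap hI ha hg
    split_ifs with h3
    · rw [hx0 j hj (by omega)]
    · rw [hx1 j hj (by omega)]
  · intro a hKa har hpos
    refine hQ a _ (hI.lt a har) hpos ?_
    have h1 := hno a hKa har
    unfold Vio at h1
    split_ifs at h1 ⊢ with h3
    · exact not_lt.1 h1
    · exact not_lt.1 h1
  · rcases hK with h1 | ⟨h1, h2, h3⟩
    · exact Or.inl h1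
    · refine Or.inr ⟨h1, h2, ?_⟩
      have hj := hI.lt (K - 1) (by omega)
      unfold Vio at h3
      split_ifs at h3 with h4
      · rw [(hpar _).1 h4, one_mul]
        linarith [hz1 _ hj]
      · rw [(hpar _).2 h4]
        linarith [hz2 _ hj]

/-- The violated positions, in decreasing order. -/
def hitB (r : ℕ) (h : ℕ → Bool) : List ℕ := ((List.range r).filter h).reverse

/-- The next indices. -/
def nxtB (r n : ℕ) (I : List ℕ) (h : ℕ → Bool) : List ℕ :=
  ((hitB r h).head?.map fun k => clip r n I (shiftL r k I)).getD I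

lemma hitB_some {r : ℕ} {h : ℕ → Bool} {k : ℕ} (hk : (hitB r h).head? = some k) :
    (k < r ∧ h k = true) ∧ ∀ k', k < k' → k' < r → ¬ h k' = true := by
  have hmem : ∀ x, x ∈ hitB r h ↔ x < r ∧ h x = true := by
    intro x
    unfold hitB
    rw [List.mem_reverse, List.mem_filter, List.mem_range]
  have hpw : (hitB r h).Pairwise (fun a b => b < a) := by
    unfold hitB
    rw [List.pairwise_reverse]
    exact List.Pairwise.filter _ List.pairwise_lt_range
  cases hl : hitB r h with
  | nil =>
    rw [hl] at hk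
    exact absurd hk (by simp)
  | cons a t =>
    rw [hl] at hk hpw
    have ha : a = k := by simpa using hk
    subst ha
    refine ⟨(hmem a).1 (by rw [hl]; exact List.mem_cons_self ..), fun k' h1 h2 h4 => ?_⟩
    have h5 := (hmem k').2 ⟨h2, h4⟩
    rw [hl, List.mem_cons] at h5
    rcases h5 with h5 | h5
    · omega
    · have := (List.pairwise_cons.1 hpw).1 k' h5
      omega

lemma hitB_none {r : ℕ} {h : ℕ → Bool} (hn : (hitB r h).head? = none) {k : ℕ}
    (hk : k < r) : ¬ h k = true := by
  intro h1
  have h2 : k ∈ hitB r h := by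
    unfold hitB
    rw [List.mem_reverse, List.mem_filter, List.mem_range]
    exact ⟨hk, h1⟩
  rw [List.head?_eq_none_iff] at hn
  rw [hn] at h2
  exact absurd h2 (by simp)

lemma range_inc' {r n : ℕ} (hrn : r ≤ n) : Inc r n (fn (List.range r)) ∧
    ∀ l < r, fn (List.range r) l = l := by
  have h1 : ∀ l < r, fn (List.range r) l = l := by
    intro l hl
    simp only [fn]
    rw [List.getD_eq_getElem?_getD, List.getElem?_range hl]
    rfl
  refine ⟨⟨fun l hl => ?_, fun l hl => ?_⟩, h1⟩
  · rw [h1 l (by omega), h1 (l + 1) hl]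
    omega
  · rw [h1 l hl]
    omega

section
variable {r n : ℕ} {S : ℕ → List ℕ} {hb : ℕ → ℕ → Bool} (hS0 : S 0 = List.range r)
  (hS : ∀ i, S (i + 1) = nxtB r n (S i) (hb i))
include hS0 hS

lemma S_inc (hrn : r ≤ n) (i : ℕ) : Inc r n (fn (S i)) := by
  induction i with
  | zero =>
    rw [hS0]
    exact (range_inc' hrn).1
  | succ i ih =>
    rw [hS i]
    unfold nxtB
    cases h : (hitB r (hb i)).head? with
    | none => exact ih
    | some k =>
      show Inc r n (fn (clip r n (S i) (shiftL r k (S i))))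
      unfold clip
      split_ifs with h1
      · exact shift_inc ih h1
      · exact ih

/-- for some `i < r n` the indices do not change -/
lemma S_fixed (hrn : r ≤ n) : ∃ i ≤ r * n, S (i + 1) = S i := by
  by_contra hc
  push Not at hc
  have key : ∀ i ≤ r * n + 1, i ≤ Pool.Agent.U23.TP.tot r (S i) := by
    intro i
    induction i with
    | zero => intro _; exact Nat.zero_le _
    | succ i ih =>
      intro hi
      have h1 := ih (by omega)
      have h2 := hc i (by omega)
      rw [hS i] at h2 ⊢
      unfold nxtB at h2 ⊢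
      cases h : (hitB r (hb i)).head? with
      | none =>
        rw [h] at h2
        exact absurd rfl h2
      | some k =>
        rw [h] at h2
        have h3 : clip r n (S i) (shiftL r k (S i)) ≠ S i := h2
        show i + 1 ≤ Pool.Agent.U23.TP.tot r (clip r n (S i) (shiftL r k (S i)))
        unfold clip at h3 ⊢
        split_ifs at h3 ⊢ with h4
        · have := shift_tot (r := r) (L := S i) (hitB_some h).1.1
          omega
        · exact absurd rfl h3
  have h1 := key (r * n + 1) (le_refl _)
  have h2 : Pool.Agent.U23.TP.tot r (S (r * n + 1)) ≤ r * (n - 1) := by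
    unfold Pool.Agent.U23.TP.tot
    have h3 := Finset.sum_le_card_nsmul (Finset.range r) (fn (S (r * n + 1))) (n - 1)
      fun l hl => by
      have := (S_inc hS0 hS hrn (r * n + 1)).lt l (Finset.mem_range.1 hl)
      omega
    rw [Finset.card_range, smul_eq_mul] at h3
    exact h3
  have h3 : r * (n - 1) ≤ r * n := Nat.mul_le_mul_left _ (by omega)
  omega

end

open Classical in
/-- **The run.** If the system is feasible for all large bounds, then the run ends with a state
without violations, the point of which is feasible for all large bounds. -/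
theorem conv {r n : ℕ} {p : ℕ → Fin r → ℝ} (hrn : r ≤ n) (hp : Cheb r n p)
    {c' : Fin r → ℝ} {fl fu : ℕ → Prop} {l u : ℕ → ℝ} {S : ℕ → List ℕ} {hb : ℕ → ℕ → Bool}
    (hS0 : S 0 = List.range r) (hS : ∀ i, S (i + 1) = nxtB r n (S i) (hb i))
    (hh : ∀ i, ∀ k < r, (hb i k = true ↔
      Hit r n fl fu l u (S i) (pt n p c' (S i) (yv r (S i) l u)) k))
    (hrep : ∀ i, S (i + 1) = S i → hb (i + 1) = hb i)
    (hfeas : ∀ᶠ M : ℝ in Filter.atTop, ∃ x : Fin n → ℝ, (∀ j : Fin n, LM fl l M j ≤ x j) ∧
      (∀ j : Fin n, x j ≤ UM fu u M j) ∧ ∑ j : Fin n, x j • p j = c') :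
    (∀ k < r, ¬ hb (r * n) k = true) ∧
    ∀ᶠ M : ℝ in Filter.atTop, ∀ j < n,
      LM fl l M j ≤ pt n p c' (S (r * n)) (yv r (S (r * n)) (LM fl l M) (UM fu u M)) j ∧
      pt n p c' (S (r * n)) (yv r (S (r * n)) (LM fl l M) (UM fu u M)) j ≤ UM fu u M j := by
  have hinc := S_inc hS0 hS hrn
  have hE1 : ∀ᶠ M : ℝ in Filter.atTop, ∀ i ∈ range (r * n + 1), ∀ k ∈ range r,
      (Vio r (LM fl l M) (UM fu u M) (S i)
        (pt n p c' (S i) (yv r (S i) (LM fl l M) (UM fu u M))) k ↔ hb i k = true) := by
    rw [Filter.eventually_all_finset]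
    intro i _
    rw [Filter.eventually_all_finset]
    intro k hk
    rw [Finset.mem_range] at hk
    filter_upwards [vio_ev hp (hinc i) c' l u ⟨k, hk⟩] with M h1
    rw [hh i k hk]
    exact h1
  have key : ∀ M : ℝ, (∀ i ∈ range (r * n + 1), ∀ k ∈ range r,
      (Vio r (LM fl l M) (UM fu u M) (S i)
        (pt n p c' (S i) (yv r (S i) (LM fl l M) (UM fu u M))) k ↔ hb i k = true)) →
      (∃ x : Fin n → ℝ, (∀ j : Fin n, LM fl l M j ≤ x j) ∧
        (∀ j : Fin n, x j ≤ UM fu u M j) ∧ ∑ j : Fin n, x j • p j = c') →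
      (∀ k < r, ¬ hb (r * n) k = true) ∧ ∀ j < n,
      LM fl l M j ≤ pt n p c' (S (r * n)) (yv r (S (r * n)) (LM fl l M) (UM fu u M)) j ∧
      pt n p c' (S (r * n)) (yv r (S (r * n)) (LM fl l M) (UM fu u M)) j ≤ UM fu u M j := by
    rintro M hM ⟨x, hx1, hx2, hx3⟩
    set L := LM fl l M with hL
    set U := UM fu u M with hU
    obtain ⟨z, hz1, hz2, hz3, J, hJ, hT⟩ := exists_target hrn hp c' L U (fun _ => 1)
      (fun _ _ => zero_le_one) x hx1 (fun j => by rw [one_mul]; exact hx2 j) hx3.symm
    simp only [one_mul] at hz2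
    set X : ℕ → ℕ → ℝ := fun i => pt n p c' (S i) (yv r (S i) L U) with hX
    have hV : ∀ i ≤ r * n, ∀ k < r, (Vio r L U (S i) (X i) k ↔ hb i k = true) :=
      fun i hi k hk => hM i (Finset.mem_range.2 (by omega)) k (Finset.mem_range.2 hk)
    have hXs : ∀ i, ∑ j ∈ range n, X i j • p j = c' := fun i => pt_sum hp (hinc i)
    have hXn : ∀ i, ∀ j < n, stat r (S i) j ≠ 2 → X i j = yv r (S i) L U j :=
      fun i j _ h => pt_nb h
    have hhit : ∀ i ≤ r * n, (∀ l < r, fn (S i) l ≤ J l) → ∀ k,
        (hitB r (hb i)).head? = some k → k < r ∧ fn (S i) k < J k := by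
      intro i hi hle k hk
      obtain ⟨⟨h1, h2⟩, h3⟩ := hitB_some hk
      refine ⟨h1, lt_of_le_of_ne (hle k h1) fun heq => ?_⟩
      have hvio := (hV i hi k h1).2 h2
      have h5 := cmp0 hrn hp hz1 hz2 hz3 hT (hinc i) hle (hXn i) (hXs i) (K := k + 1) (by omega)
        (fun k' hk1 hk2 => by
          rw [hV i hi k' hk2]
          exact h3 k' (by omega) hk2) (Or.inr ⟨by omega, by rw [Nat.add_sub_cancel]; exact heq,
            by rw [Nat.add_sub_cancel]; exact hvio⟩)
      have hkn := (hinc i).lt k h1
      have h6 := h5 _ hkn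
      unfold Vio at hvio
      split_ifs at hvio
      · have := hz1 _ hkn
        linarith
      · have := hz2 _ hkn
        linarith
    have hle : ∀ i ≤ r * n + 1, ∀ l < r, fn (S i) l ≤ J l := by
      intro i
      induction i with
      | zero =>
        intro _ l hl
        rw [hS0, (range_inc' hrn).2 l hl]
        have := hJ.add_le 0 l (by omega)
        rw [Nat.zero_add] at this
        omega
      | succ i ih =>
        intro hi
        have hle := ih (by omega)
        rw [hS i]
        unfold nxtB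
        cases hk : (hitB r (hb i)).head? with
        | none => exact hle
        | some k =>
          obtain ⟨h1, h2⟩ := hhit i (by omega) hle k hk
          have h4 : ∀ l < r, fn (shiftL r k (S i)) l ≤ J l := by
            intro l hl
            simp only [fn] at h2 ⊢
            rw [shift_getD hl]
            split_ifs with h5
            · have h6 := hJ.add_le k (l - k) (by omega)
              rw [show k + (l - k) = l by omega] at h6
              omega
            · exact hle l hl
          have h5 : (shiftL r k (S i)).getD (r - 1) 0 < n :=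
            lt_of_le_of_lt (h4 (r - 1) (by omega)) (hJ.lt (r - 1) (by omega))
          show ∀ l < r, fn (clip r n _ (shiftL r k (S i))) l ≤ J l
          unfold clip
          rw [if_pos h5]
          exact h4
    -- a state which does not change has no violations, and stays
    obtain ⟨i0, hi0, hfix⟩ := S_fixed hS0 hS hrn
    have hstay : ∀ t, S (i0 + t) = S i0 ∧ hb (i0 + t) = hb i0 := by
      intro t
      induction t with
      | zero => exact ⟨rfl, rfl⟩
      | succ t ih =>
        have h1 : S (i0 + t + 1) = S (i0 + t) := by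
          rw [hS (i0 + t), ih.1, ih.2, ← hS i0]
          exact hfix
        have h2 := hrep _ h1
        rw [show i0 + (t + 1) = i0 + t + 1 by omega]
        exact ⟨h1.trans ih.1, h2.trans ih.2⟩
    have hend := hstay (r * n - i0)
    rw [show i0 + (r * n - i0) = r * n by omega] at hend
    have hnone : (hitB r (hb (r * n))).head? = none := by
      rw [hend.2]
      cases hk : (hitB r (hb i0)).head? with
      | none => rfl
      | some k =>
        exfalso
        obtain ⟨h1, h2⟩ := hhit i0 hi0 (hle i0 (by omega)) k hk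
        have h4 : ∀ l < r, fn (shiftL r k (S i0)) l ≤ J l := by
          intro l hl
          simp only [fn] at h2 ⊢
          rw [shift_getD hl]
          split_ifs with h5
          · have h6 := hJ.add_le k (l - k) (by omega)
            rw [show k + (l - k) = l by omega] at h6
            omega
          · exact hle i0 (by omega) l hl
        have h5 : (shiftL r k (S i0)).getD (r - 1) 0 < n :=
          lt_of_le_of_lt (h4 (r - 1) (by omega)) (hJ.lt (r - 1) (by omega))
        have h8 : S (i0 + 1) = shiftL r k (S i0) := by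
          rw [hS i0]
          unfold nxtB
          rw [hk]
          show clip r n _ _ = _
          unfold clip
          rw [if_pos h5]
        rw [h8] at hfix
        have h9 := shift_tot (r := r) (L := S i0) h1
        rw [hfix] at h9
        omega
    have hnb : ∀ k < r, ¬ hb (r * n) k = true := fun k hk => hitB_none hnone hk
    refine ⟨hnb, ?_⟩
    have h5 := cmp0 hrn hp hz1 hz2 hz3 hT (hinc (r * n)) (hle (r * n) (by omega)) (hXn (r * n))
      (hXs (r * n)) (K := 0) (Nat.zero_le _) (fun k' _ hk2 => by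
        rw [hV (r * n) (le_refl _) k' hk2]
        exact hnb k' hk2) (Or.inl rfl)
    intro j hj
    have h6 : X (r * n) j = z j := by
      have := h5 j hj
      linarith
    show L j ≤ X (r * n) j ∧ X (r * n) j ≤ U j
    rw [h6]
    exact ⟨hz1 j hj, hz2 j hj⟩
  obtain ⟨M, hM1, hM2⟩ := (hE1.and hfeas).exists
  refine ⟨(key M hM1 hM2).1, ?_⟩
  filter_upwards [hE1, hfeas] with M h1 h2
  exact (key M h1 h2).2

end Pool.Agent.U23.TC
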