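import Pool.Agent.U23.TB.BState

/-!
# Basic points, and bounds which go to infinity
-/

set_option autoImplicit false

namespace Pool.Agent.U23.TC

open Finset Pool.Agent.U23.TP Pool.Agent.U23.TB

section
variable {r : ℕ} (n : ℕ) (p : ℕ → Fin r → ℝ) (c' : Fin r → ℝ) (I : List ℕ) (y : ℕ → ℝ)

/-- The basic coordinates. -/
noncomputable def bc (k : Fin r) : ℝ :=
  cf p (fn I) (c' - ∑ j ∈ range n, (if stat r I j = 2 then 0 else y j) • p j) k /
    (MI p (fn I)).det

/-- The basic point with the nonbasic coordinates `y`. -/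
noncomputable def pt : ℕ → ℝ := fun j =>
  if stat r I j = 2 then ∑ k : Fin r, if fn I k = j then bc n p c' I y k else 0 else y j

variable {n p c' I y}

lemma pt_nb {j : ℕ} (h : stat r I j ≠ 2) : pt n p c' I y j = y j := by
  unfold pt
  rw [if_neg h]

lemma pt_b (hI : Inc r n (fn I)) (k : Fin r) : pt n p c' I y (fn I k) = bc n p c' I y k := by
  unfold pt
  rw [if_pos (stat_two.2 ⟨k, k.2, rfl⟩), Finset.sum_eq_single k]
  · rw [if_pos rfl]
  · intro i _ hi
    rw [if_neg]
    intro h
    exact hi (Fin.ext (hI.inj i.2 k.2 h))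
  · intro h
    exact absurd (Finset.mem_univ _) h

lemma pt_sum (hp : Cheb r n p) (hI : Inc r n (fn I)) :
    ∑ j ∈ range n, pt n p c' I y j • p j = c' := by
  have hd := det_pos hp hI
  have h1 : ∀ j ∈ range n, pt n p c' I y j • p j = (if stat r I j = 2 then 0 else y j) • p j +
      (∑ k : Fin r, if fn I k = j then bc n p c' I y k else 0) • p j := by
    intro j _
    rw [← add_smul]
    congr 1
    unfold pt
    by_cases h : stat r I j = 2
    · rw [if_pos h, if_pos h, zero_add]
    · rw [if_neg h, if_neg h]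
      have h3 : (∑ k : Fin r, if fn I k = j then bc n p c' I y k else 0) = 0 := by
        refine Finset.sum_eq_zero fun i _ => ?_
        rw [if_neg]
        intro h3
        exact h (stat_two.2 ⟨i, i.2, h3⟩)
      rw [h3, add_zero]
  rw [Finset.sum_congr rfl h1, Finset.sum_add_distrib]
  have h2 := sum_pick (n := n) (fn I) (fun i hi => hI.lt i hi) (bc n p c' I y) p
  rw [Finset.sum_range (fun j => (∑ k : Fin r, if fn I k = j then bc n p c' I y k else 0) • p j),
    h2]
  set w := c' - ∑ j ∈ range n, (if stat r I j = 2 then 0 else y j) • p j with hw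
  have h4 : ∑ i : Fin r, bc n p c' I y i • p (fn I i) = w := by
    have h5 := cf_sum p (fn I) w
    have h3 : w = ((MI p (fn I)).det)⁻¹ • ∑ i : Fin r, cf p (fn I) w i • p (fn I i) := by
      rw [h5, smul_smul, inv_mul_cancel₀ hd.ne', one_smul]
    conv_rhs => rw [h3]
    rw [Finset.smul_sum]
    refine Finset.sum_congr rfl fun i _ => ?_
    rw [smul_smul]
    congr 1
    unfold bc
    rw [← hw]
    ring
  rw [h4, hw]
  abel

/-- the basic coordinates as linear functions of the nonbasic ones -/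
lemma bc_eq (k : Fin r) : bc n p c' I y k =
    (cf p (fn I) c' k - ∑ j ∈ range n, (if stat r I j = 2 then 0 else y j) *
      cf p (fn I) (p j) k) / (MI p (fn I)).det := by
  unfold bc
  congr 1
  have h1 := cf_lin p (fn I) (range n) (fun j => if stat r I j = 2 then 0 else y j) p k
  rw [← h1]
  unfold cf
  rw [map_sub]
  rfl

end

lemma ev_pos {T : Finset ℕ} {κ : ℕ → ℝ} (a : ℝ) {t : ℕ} (ht : t ∈ T) (hmax : ∀ i ∈ T, i ≤ t)
    (hκ : 0 < κ t) :
    ∀ᶠ M : ℝ in Filter.atTop, 0 < a + ∑ i ∈ T, κ i * M ^ (i + 1) := by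
  set B : ℝ := |a| + ∑ i ∈ T, |κ i| with hB
  filter_upwards [Filter.eventually_ge_atTop (1 : ℝ), Filter.eventually_gt_atTop (B / κ t)] with M
    h1 h2
  have hM0 : 0 < M := by linarith
  rw [div_lt_iff₀ hκ] at h2
  rw [← Finset.add_sum_erase T _ ht]
  have h3 : -(∑ i ∈ T.erase t, |κ i| * M ^ t) ≤ ∑ i ∈ T.erase t, κ i * M ^ (i + 1) := by
    rw [← Finset.sum_neg_distrib]
    refine Finset.sum_le_sum fun i hi => ?_
    rw [Finset.mem_erase] at hi
    have h4 := hmax i hi.2
    have h5 : M ^ (i + 1) ≤ M ^ t := pow_le_pow_right₀ h1 (by omega)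
    have h6 : 0 < M ^ (i + 1) := pow_pos hM0 _
    have h7 : |κ i| * M ^ (i + 1) ≤ |κ i| * M ^ t := mul_le_mul_of_nonneg_left h5 (abs_nonneg _)
    have h8 : -(|κ i| * M ^ (i + 1)) ≤ κ i * M ^ (i + 1) := by
      have := mul_le_mul_of_nonneg_right (neg_abs_le (κ i)) h6.le
      linarith
    linarith
  have h4 : ∑ i ∈ T.erase t, |κ i| ≤ ∑ i ∈ T, |κ i| :=
    Finset.sum_le_sum_of_subset_of_nonneg (Finset.erase_subset _ _) fun _ _ _ => abs_nonneg _
  have h5 : 1 ≤ M ^ t := one_le_pow₀ h1
  have h6 : |a| ≤ |a| * M ^ t := le_mul_of_one_le_right (abs_nonneg _) h5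
  have h7 := neg_abs_le a
  rw [← Finset.sum_mul] at h3
  have h8 : (∑ i ∈ T.erase t, |κ i|) * M ^ t ≤ (∑ i ∈ T, |κ i|) * M ^ t :=
    mul_le_mul_of_nonneg_right h4 (by linarith)
  have h9 : 0 < (κ t * M - B) * M ^ t := mul_pos (by linarith) (by linarith)
  rw [pow_succ, hB] at *
  nlinarith [h9, h8, h6, h7, h3]

/-- The index `j` is not basic, and at an infinite bound. -/
def Inf (r : ℕ) (fl fu : ℕ → Prop) (I : List ℕ) (j : ℕ) : Prop :=
  (stat r I j = 0 ∧ ¬ fl j) ∨ (stat r I j = 1 ∧ ¬ fu j)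

open Classical in
/-- The lower bounds. -/
noncomputable def LM (fl : ℕ → Prop) (l : ℕ → ℝ) (M : ℝ) (j : ℕ) : ℝ :=
  if fl j then l j else l j - M ^ (j + 1)

open Classical in
/-- The upper bounds. -/
noncomputable def UM (fu : ℕ → Prop) (u : ℕ → ℝ) (M : ℝ) (j : ℕ) : ℝ :=
  if fu j then u j else u j + M ^ (j + 1)

/-- The nonbasic coordinates. -/
noncomputable def yv (r : ℕ) (I : List ℕ) (l u : ℕ → ℝ) (j : ℕ) : ℝ :=
  if stat r I j = 0 then l j else u j

/-- The index number `k` is violated, in the limit. -/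
def Hit (r n : ℕ) (fl fu : ℕ → Prop) (l u : ℕ → ℝ) (I : List ℕ) (x : ℕ → ℝ) (k : ℕ) : Prop :=
  (∃ i < n, Inf r fl fu I i ∧ fn I k < i) ∨
    ((∀ i < n, ¬ Inf r fl fu I i) ∧
      if (r + k) % 2 = 0 then fl (fn I k) ∧ x (fn I k) < l (fn I k)
      else fu (fn I k) ∧ u (fn I k) < x (fn I k))

/-- The index number `k` is violated. -/
def Vio (r : ℕ) (l u : ℕ → ℝ) (I : List ℕ) (x : ℕ → ℝ) (k : ℕ) : Prop :=
  if (r + k) % 2 = 0 then x (fn I k) < l (fn I k) else u (fn I k) < x (fn I k)

section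
variable {r n : ℕ} {p : ℕ → Fin r → ℝ} {I : List ℕ} {fl fu : ℕ → Prop}

/-- the coefficients of the powers of `M` -/
noncomputable def kap (p : ℕ → Fin r → ℝ) (I : List ℕ) (k : Fin r) (i : ℕ) : ℝ :=
  (if stat r I i = 0 then 1 else -1) * cf p (fn I) (p i) k / (MI p (fn I)).det

/-- their signs -/
lemma kap_sign (hp : Cheb r n p) (hI : Inc r n (fn I)) (k : Fin r) {i : ℕ} (hi : i < n)
    (hb : stat r I i ≠ 2) :
    0 < (if fn I k < i then -1 else 1) * ((-1 : ℝ) ^ (r + k) * kap p I k i) := by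
  classical
  have hd := det_pos hp hI
  have hne : ∀ l < r, fn I l ≠ i := fun l hl h => hb (stat_two.2 ⟨l, hl, h⟩)
  obtain ⟨m, hm, hg⟩ := exists_gap hne
  have hst := stat_gap hI hm hg
  have h1 := cf_sign hp hI k hi hne
  have hcnt : cnt (range r) (fn I) i = m := by
    apply le_antisymm
    · by_contra hc
      have h2 : m < r := by
        have := cnt_le (range r) (fn I) i
        rw [Finset.card_range] at this
        omega
      have h3 := (cnt_seg hI i h2).2 (by omega)
      rcases hg.2 with h4 | h4 <;> omega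
    · by_contra hc
      rcases hg.1 with h4 | h4
      · omega
      · have h3 := (cnt_seg hI i (show m - 1 < r by omega)).1 h4
        omega
  have her := cnt_erase (range r) (fn I) i (k : ℕ) (Finset.mem_range.2 k.2)
  rw [hcnt] at her
  have hkm : fn I k < i ↔ (k : ℕ) < m := by
    rw [cnt_seg hI i k.2, hcnt]
  set N := cnt ((range r).erase (k : ℕ)) (fn I) i with hN
  have h2 : 0 < (-1 : ℝ) ^ ((k : ℕ) + N) * cf p (fn I) (p i) k / (MI p (fn I)).det :=
    div_pos h1 hd
  have h3 : (if fn I k < i then (-1 : ℝ) else 1) * ((-1 : ℝ) ^ (r + (k : ℕ)) * kap p I k i) =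
      (-1 : ℝ) ^ ((k : ℕ) + N) * cf p (fn I) (p i) k / (MI p (fn I)).det := by
    unfold kap
    have h4 : (if fn I k < i then (-1 : ℝ) else 1) * ((-1 : ℝ) ^ (r + (k : ℕ)) *
        (if stat r I i = 0 then 1 else -1)) = (-1 : ℝ) ^ ((k : ℕ) + N) := by
      by_cases h5 : fn I k < i
      · rw [if_pos h5] at her ⊢
        by_cases h6 : stat r I i = 0
        · rw [if_pos h6, mul_one, show (-1 : ℝ) * (-1) ^ (r + (k : ℕ)) = (-1) ^ (r + k + 1) by
            rw [pow_succ]; ring]
          exact neg_one_pow_parity (by omega)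
        · rw [if_neg h6, show (-1 : ℝ) * ((-1) ^ (r + (k : ℕ)) * -1) = (-1) ^ (r + (k : ℕ)) by ring]
          exact neg_one_pow_parity (by omega)
      · rw [if_neg h5] at her ⊢
        by_cases h6 : stat r I i = 0
        · rw [if_pos h6, mul_one, one_mul]
          exact neg_one_pow_parity (by omega)
        · rw [if_neg h6, one_mul, show (-1 : ℝ) ^ (r + (k : ℕ)) * -1 = (-1) ^ (r + k + 1) by
            rw [pow_succ]]
          exact neg_one_pow_parity (by omega)
    rw [← h4]
    ring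
  rw [h3]
  exact h2

open Classical in
/-- the basic coordinates for large bounds -/
lemma bc_M {l u : ℕ → ℝ} (c' : Fin r → ℝ) (M : ℝ) (k : Fin r) :
    bc n p c' I (yv r I (LM fl l M) (UM fu u M)) k = bc n p c' I (yv r I l u) k +
      ∑ i ∈ (range n).filter fun i => Inf r fl fu I i, kap p I k i * M ^ (i + 1) := by
  rw [bc_eq, bc_eq, Finset.sum_filter]
  have h1 : ∀ j ∈ range n, (if stat r I j = 2 then 0 else yv r I (LM fl l M) (UM fu u M) j) *
      cf p (fn I) (p j) k = (if stat r I j = 2 then 0 else yv r I l u j) * cf p (fn I) (p j) k +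
        (if Inf r fl fu I j then (if stat r I j = 0 then -1 else 1) * M ^ (j + 1) *
          cf p (fn I) (p j) k else 0) := by
    intro j _
    unfold yv LM UM Inf
    rcases stat_lt (r := r) (I := I) (j := j) with h | h | h
    · by_cases h2 : fl j
      · simp [h, h2]
      · simp [h, h2]
        ring
    · by_cases h2 : fu j
      · simp [h, h2]
      · simp [h, h2]
        ring
    · simp [h]
  rw [Finset.sum_congr rfl h1, Finset.sum_add_distrib]
  have h2 : ∑ i ∈ range n, (if Inf r fl fu I i then kap p I k i * M ^ (i + 1) else 0) =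
      - (∑ j ∈ range n, if Inf r fl fu I j then (if stat r I j = 0 then -1 else 1) *
        M ^ (j + 1) * cf p (fn I) (p j) k else 0) / (MI p (fn I)).det := by
    rw [neg_div, Finset.sum_div, ← Finset.sum_neg_distrib]
    refine Finset.sum_congr rfl fun j _ => ?_
    unfold kap
    split_ifs <;> ring
  rw [h2]
  ring

end

end Pool.Agent.U23.TC
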