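import Pool.Agent.U23.TC.Pt

/-!
# Violations for large bounds
-/

set_option autoImplicit false

namespace Pool.Agent.U23.TC

open Finset Pool.Agent.U23.TP Pool.Agent.U23.TB

section
variable {r n : ℕ} {p : ℕ → Fin r → ℝ} {I : List ℕ} {fl fu : ℕ → Prop}

open Classical in
/-- **Violations for large bounds.** -/
theorem vio_ev (hp : Cheb r n p) (hI : Inc r n (fn I)) (c' : Fin r → ℝ) (l u : ℕ → ℝ)
    (k : Fin r) : ∀ᶠ M : ℝ in Filter.atTop,
    (Vio r (LM fl l M) (UM fu u M) I (pt n p c' I (yv r I (LM fl l M) (UM fu u M))) k ↔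
      Hit r n fl fu l u I (pt n p c' I (yv r I l u)) k) := by
  set S := (range n).filter fun i => Inf r fl fu I i with hS
  have hSi : ∀ i ∈ S, i < n ∧ stat r I i ≠ 2 := by
    intro i hi
    rw [hS, Finset.mem_filter, Finset.mem_range] at hi
    refine ⟨hi.1, ?_⟩
    rcases hi.2 with h | h <;> omega
  have hSm : ∀ i, i ∈ S ↔ i < n ∧ Inf r fl fu I i := by
    intro i
    rw [hS, Finset.mem_filter, Finset.mem_range]
  set e := fn I k with he
  have heS : e ∉ S := fun h => (hSi e h).2 (stat_two.2 ⟨k, k.2, rfl⟩)
  set g : ℝ := (-1 : ℝ) ^ (r + (k : ℕ)) with hg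
  -- the test at the limit
  set fin : Prop := if (r + (k : ℕ)) % 2 = 0 then fl e else fu e with hfin
  set a : ℝ := g * ((if (r + (k : ℕ)) % 2 = 0 then l e else u e) -
    bc n p c' I (yv r I l u) k) with ha
  have hgeven : (r + (k : ℕ)) % 2 = 0 → g = 1 := by
    intro h
    rw [hg, neg_one_pow_parity (b := 0) (by omega), pow_zero]
  have hgodd : ¬ (r + (k : ℕ)) % 2 = 0 → g = -1 := by
    intro h
    rw [hg, neg_one_pow_parity (b := 1) (by omega), pow_one]
  have hV : ∀ M : ℝ, Vio r (LM fl l M) (UM fu u M) I
      (pt n p c' I (yv r I (LM fl l M) (UM fu u M))) k ↔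
      0 < a + (∑ i ∈ S, -(g * kap p I k i) * M ^ (i + 1)) - (if fin then 0 else M ^ (e + 1)) := by
    intro M
    unfold Vio
    rw [pt_b hI, bc_M]
    have hsum : ∑ i ∈ S, -(g * kap p I k i) * M ^ (i + 1) =
        - (g * ∑ i ∈ S, kap p I k i * M ^ (i + 1)) := by
      rw [Finset.mul_sum, ← Finset.sum_neg_distrib]
      exact Finset.sum_congr rfl fun i _ => by ring
    rw [hsum, ← hS]
    by_cases h : (r + (k : ℕ)) % 2 = 0
    · rw [if_pos h]
      simp only [ha, hfin, if_pos h, hgeven h]
      unfold LM
      split_ifs
      · constructor <;> intro h2 <;> linarith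
      · constructor <;> intro h2 <;> linarith
    · rw [if_neg h]
      simp only [ha, hfin, if_neg h, hgodd h]
      unfold UM
      split_ifs
      · constructor <;> intro h2 <;> linarith
      · constructor <;> intro h2 <;> linarith
  have hH : Hit r n fl fu l u I (pt n p c' I (yv r I l u)) k ↔
      ((∃ i ∈ S, e < i) ∨ (S = ∅ ∧ fin ∧ 0 < a)) := by
    unfold Hit
    have h1 : (∃ i < n, Inf r fl fu I i ∧ fn I k < i) ↔ ∃ i ∈ S, e < i := by
      constructor
      · rintro ⟨i, h2, h3, h4⟩
        exact ⟨i, (hSm i).2 ⟨h2, h3⟩, h4⟩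
      · rintro ⟨i, h2, h3⟩
        exact ⟨i, ((hSm i).1 h2).1, ((hSm i).1 h2).2, h3⟩
    have h2 : (∀ i < n, ¬ Inf r fl fu I i) ↔ S = ∅ := by
      rw [Finset.eq_empty_iff_forall_notMem]
      constructor
      · intro h3 i hi
        exact h3 i ((hSm i).1 hi).1 ((hSm i).1 hi).2
      · intro h3 i hi h4
        exact h3 i ((hSm i).2 ⟨hi, h4⟩)
    rw [h1, h2, pt_b hI]
    refine or_congr Iff.rfl (and_congr Iff.rfl ?_)
    by_cases h : (r + (k : ℕ)) % 2 = 0
    · simp only [ha, hfin, if_pos h, hgeven h]
      refine and_congr Iff.rfl ?_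
      constructor <;> intro h2 <;> linarith
    · simp only [ha, hfin, if_neg h, hgodd h]
      refine and_congr Iff.rfl ?_
      constructor <;> intro h2 <;> linarith
  have hκ : ∀ i ∈ S, (e < i → 0 < -(g * kap p I k i)) ∧ (i < e → 0 < g * kap p I k i) := by
    intro i hi
    have h1 := kap_sign hp hI k (hSi i hi).1 (hSi i hi).2
    constructor
    · intro h2
      rw [if_pos h2] at h1
      linarith
    · intro h2
      rw [if_neg (by omega)] at h1
      linarith
  rw [Filter.eventually_congr (Filter.Eventually.of_forall fun M => by rw [hV M, hH])]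
  rcases S.eq_empty_or_nonempty with hem | hne
  · by_cases hf : fin
    · refine Filter.Eventually.of_forall fun M => ?_
      simp [hem, hf]
    · have h1 := ev_pos (T := {e}) (κ := fun _ => 1) (-a) (t := e) (by simp) (by simp) one_pos
      filter_upwards [h1] with M h2
      simp only [Finset.sum_singleton, one_mul] at h2
      refine iff_of_false ?_ ?_
      · rw [hem, Finset.sum_empty, if_neg hf]
        linarith
      · rintro (⟨i, hi, _⟩ | ⟨_, h3, _⟩)
        · rw [hem] at hi
          exact absurd hi (Finset.notMem_empty _)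
        · exact hf h3
  · set t := S.max' hne with ht
    have htS : t ∈ S := Finset.max'_mem _ _
    have htm : ∀ i ∈ S, i ≤ t := fun i hi => Finset.le_max' _ _ hi
    have hte : t ≠ e := fun h => heS (h ▸ htS)
    rcases Nat.lt_or_ge e t with hlt | hge
    · -- violated
      have hR : ((∃ i ∈ S, e < i) ∨ (S = ∅ ∧ fin ∧ 0 < a)) := Or.inl ⟨t, htS, hlt⟩
      have h1 := ev_pos (T := insert e S)
        (κ := fun i => if i = e then (if fin then 0 else -1) else -(g * kap p I k i)) a
        (t := t) (Finset.mem_insert_of_mem htS) (by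
          intro i hi
          rcases Finset.mem_insert.1 hi with h2 | h2
          · omega
          · exact htm i h2) (by
          rw [if_neg hte]
          exact (hκ t htS).1 hlt)
      filter_upwards [h1] with M h2
      refine iff_of_true ?_ hR
      rw [Finset.sum_insert heS] at h2
      simp only [if_true] at h2
      have h3 : ∑ i ∈ S, (if i = e then (if fin then (0 : ℝ) else -1) else -(g * kap p I k i)) *
          M ^ (i + 1) = ∑ i ∈ S, -(g * kap p I k i) * M ^ (i + 1) := by
        refine Finset.sum_congr rfl fun i hi => ?_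
        rw [if_neg (show ¬ i = e from fun h => heS (h ▸ hi))]
      rw [h3] at h2
      split_ifs at h2 ⊢ <;> linarith
    · have hlt : t < e := by omega
      have hR : ¬ ((∃ i ∈ S, e < i) ∨ (S = ∅ ∧ fin ∧ 0 < a)) := by
        rintro (⟨i, hi, h2⟩ | ⟨h2, _⟩)
        · have := htm i hi
          omega
        · rw [h2] at htS
          exact absurd htS (Finset.notMem_empty _)
      by_cases hf : fin
      · have h1 := ev_pos (T := S) (κ := fun i => g * kap p I k i) (-a)
          (t := t) htS htm ((hκ t htS).2 hlt)
        filter_upwards [h1] with M h2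
        refine iff_of_false ?_ hR
        rw [if_pos hf, not_lt]
        have h3 : ∑ i ∈ S, -(g * kap p I k i) * M ^ (i + 1) =
            - ∑ i ∈ S, g * kap p I k i * M ^ (i + 1) := by
          rw [← Finset.sum_neg_distrib]
          exact Finset.sum_congr rfl fun i _ => by ring
        rw [h3]
        linarith
      · have h1 := ev_pos (T := insert e S)
          (κ := fun i => if i = e then 1 else g * kap p I k i) (-a)
          (t := e) (Finset.mem_insert_self _ _) (by
            intro i hi
            rcases Finset.mem_insert.1 hi with h2 | h2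
            · omega
            · have := htm i h2
              omega) (by simp)
        filter_upwards [h1] with M h2
        refine iff_of_false ?_ hR
        rw [if_neg hf, not_lt]
        rw [Finset.sum_insert heS] at h2
        simp only [if_true, one_mul] at h2
        have h4 : ∑ i ∈ S, (if i = e then (1 : ℝ) else g * kap p I k i) *
            M ^ (i + 1) = ∑ i ∈ S, g * kap p I k i * M ^ (i + 1) := by
          refine Finset.sum_congr rfl fun i hi => ?_
          rw [if_neg (show ¬ i = e from fun h => heS (h ▸ hi))]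
        rw [h4] at h2
        have h3 : ∑ i ∈ S, -(g * kap p I k i) * M ^ (i + 1) =
            - ∑ i ∈ S, g * kap p I k i * M ^ (i + 1) := by
          rw [← Finset.sum_neg_distrib]
          exact Finset.sum_congr rfl fun i _ => by ring
        rw [h3]
        linarith

end

end Pool.Agent.U23.TC
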